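import Pool.Agent.Helper78K9.BK.Desc
import Pool.Agent.Helper78K9.DS.CycJ
import Pool.Agent.Helper78K9.DS.Big
import Pool.Agent.Helper78K9.DS.Atr
import Pool.Agent.Helper51K9.TI.Arith

/-!
# Beilinson's conjecture for `K_2` of curves: number fields
-/

set_option autoImplicit false
set_option linter.unusedSectionVars false

namespace Pool.Agent.Helper78K9.BK

open Matrix Polynomial Filter Topology NumberField Pool.Agent.Helper51K9.TI

open Pool.Agent.R389 (Hyper ind_ind ind)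

variable {A : Type} [Field A] [CharZero A] [IsAlgClosed A] [Algebra.IsAlgebraic ℚ A] {d : ℕ}
  (X : CurveData A d)

open Classical in
theorem trace_perm {G : Type} [Group G] [Finite G] {π : (A ≃ₐ[ℚ] A) →* G}
    (hsurj : Function.Surjective π) (V : Subgroup G) (K : IntermediateField ℚ A)
    [FiniteDimensional ℚ K] (hK : K.fixingSubgroup = V.comap π) (γ : A ≃ₐ[ℚ] A) :
    (permRep K γ).trace = ind V (fun _ => (1 : ℚ)) (π γ) := by
  change (DS.permMatrix ℚ K γ).trace = _
  rw [DS.perm_eq K hK, Helper8K9.DG.chr ℚ G π hsurj V K hK 1 γ]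
  simp

/-- **(1)** -/
theorem galois_descent (F : IntermediateField ℚ A) [FiniteDimensional ℚ F]
    [F.fixingSubgroup.Normal] (K' : IntermediateField ℚ A) [FiniteDimensional ℚ K'] (hK' : K' ≤ F)
    (h : ∀ (K : IntermediateField ℚ A) [FiniteDimensional ℚ K], K' ≤ K → K ≤ F →
      Hyper (K.fixingSubgroup.map (QuotientGroup.mk' F.fixingSubgroup)) →
      Beilinson1 X K ∧ Beilinson2 X K) : Beilinson1 X K' ∧ Beilinson2 X K' := by
  classical
  have hG : IsGalois ℚ A := isGalois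
  have hfi : F.fixingSubgroup.FiniteIndex := by
    refine ⟨?_⟩
    rw [← IntermediateField.finrank_eq_fixingSubgroup_index]
    exact Module.finrank_pos.ne'
  have hfin : Finite ((A ≃ₐ[ℚ] A) ⧸ F.fixingSubgroup) := inferInstance
  set π := QuotientGroup.mk' F.fixingSubgroup with hπ
  have hsurj : Function.Surjective π := QuotientGroup.mk'_surjective _
  have hker : π.ker = F.fixingSubgroup := QuotientGroup.ker_mk' _
  have hle : F.fixingSubgroup ≤ K'.fixingSubgroup := IntermediateField.fixingSubgroup_antitone hK'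
  have hU : K'.fixingSubgroup = (K'.fixingSubgroup.map π).comap π := by
    rw [Subgroup.comap_map_eq, hker, sup_eq_left.2 hle]
  have hfinite : Helper8K9.DG.IsFinite F π := ⟨F, inferInstance, le_rfl, fun γ hγ => by
    rwa [← MonoidHom.mem_ker, hker]⟩
  obtain ⟨B, C, hB, hC, hB0, hC0, hrel⟩ := solomon_sub (K'.fixingSubgroup.map π)
  have hnice : ∀ V : Subgroup ((A ≃ₐ[ℚ] A) ⧸ F.fixingSubgroup), Hyper V →
      V ≤ K'.fixingSubgroup.map π → BNice X (fun γ => ind V (fun _ => (1 : ℚ)) (π γ)) := by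
    intro V hV hVU
    obtain ⟨K, hK, hKF, hKV⟩ := Helper8K9.DG.cor F _ π hfinite V
    have h1 : K' ≤ K := by
      rw [← InfiniteGalois.fixedField_fixingSubgroup K',
        ← InfiniteGalois.fixedField_fixingSubgroup K]
      refine IntermediateField.fixedField_antitone ?_
      rw [hKV, hU]
      exact Subgroup.comap_mono hVU
    have h2 : Hyper (K.fixingSubgroup.map π) := by
      rw [hKV, Subgroup.map_comap_eq_self_of_surjective hsurj]
      exact hV
    exact ⟨K →ₐ[ℚ] A, inferInstance, inferInstance, permRep K, isFinite_permRep K,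
      fun γ => trace_perm hsurj V K hKV γ, (bgood_iff X K).2 (h K h1 hKF h2)⟩
  refine (bgood_iff X K').1 (bgood_of_char X (permRep K') (isFinite_permRep K')
    (BNice.list X (fun V γ => ind V (fun _ => (1 : ℚ)) (π γ)) B hB0
      fun V hV => hnice V (hB V hV).1 (hB V hV).2)
    (BNice.list X (fun V γ => ind V (fun _ => (1 : ℚ)) (π γ)) C hC0
      fun V hV => hnice V (hC V hV).1 (hC V hV).2) fun γ => ?_)
  rw [trace_perm hsurj _ K' hU γ]
  exact hrel (π γ)

/-- the permutation character of a linearly disjoint compositum -/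
theorem trace_sup (K K₀ : IntermediateField ℚ A) [FiniteDimensional ℚ K]
    [FiniteDimensional ℚ K₀] [FiniteDimensional ℚ (K ⊔ K₀ : IntermediateField ℚ A)]
    (hdeg : Module.finrank ℚ (K ⊔ K₀ : IntermediateField ℚ A) =
      Module.finrank ℚ K * Module.finrank ℚ K₀) (γ : A ≃ₐ[ℚ] A) :
    (open Classical in (permRep (K ⊔ K₀) γ).trace) =
      (open Classical in (permRep K γ).trace) * (open Classical in (permRep K₀ γ).trace) := by
  classical
  have htr : ∀ (L : IntermediateField ℚ A) [FiniteDimensional ℚ L], (permRep L γ).trace =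
      ∑ τ : L →ₐ[ℚ] A, if (γ : A →ₐ[ℚ] A).comp τ = τ then (1 : ℚ) else 0 := fun L _ => rfl
  rw [htr, htr, htr, Finset.sum_mul_sum]
  refine Eq.trans ?_ (Fintype.sum_prod_type' (fun (i : K →ₐ[ℚ] A) (j : K₀ →ₐ[ℚ] A) =>
    (if (γ : A →ₐ[ℚ] A).comp i = i then (1 : ℚ) else 0) *
      if (γ : A →ₐ[ℚ] A).comp j = j then (1 : ℚ) else 0))
  let e : ((K ⊔ K₀ : IntermediateField ℚ A) →ₐ[ℚ] A) → (K →ₐ[ℚ] A) × (K₀ →ₐ[ℚ] A) := fun τ =>
    (τ.comp (IntermediateField.inclusion le_sup_left), τ.comp (IntermediateField.inclusion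
      le_sup_right))
  have hinj : Function.Injective e := by
    intro τ τ' h
    obtain ⟨g, hg⟩ := exists_extend _ τ
    obtain ⟨g', hg'⟩ := exists_extend _ τ'
    have h1 : g'⁻¹ * g ∈ K.fixingSubgroup := by
      rw [IntermediateField.mem_fixingSubgroup_iff]
      intro x hx
      have h2 := DFunLike.congr_fun (congrArg Prod.fst h) ⟨x, hx⟩
      have h3 : g x = g' x := (hg ⟨x, (le_sup_left : K ≤ K ⊔ K₀) hx⟩).trans
        (h2.trans (hg' ⟨x, (le_sup_left : K ≤ K ⊔ K₀) hx⟩).symm)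
      rw [AlgEquiv.mul_apply, h3, ← AlgEquiv.mul_apply, inv_mul_cancel, AlgEquiv.one_apply]
    have h1' : g'⁻¹ * g ∈ K₀.fixingSubgroup := by
      rw [IntermediateField.mem_fixingSubgroup_iff]
      intro x hx
      have h2 := DFunLike.congr_fun (congrArg Prod.snd h) ⟨x, hx⟩
      have h3 : g x = g' x := (hg ⟨x, (le_sup_right : K₀ ≤ K ⊔ K₀) hx⟩).trans
        (h2.trans (hg' ⟨x, (le_sup_right : K₀ ≤ K ⊔ K₀) hx⟩).symm)
      rw [AlgEquiv.mul_apply, h3, ← AlgEquiv.mul_apply, inv_mul_cancel, AlgEquiv.one_apply]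
    have h4 : g'⁻¹ * g ∈ (K ⊔ K₀).fixingSubgroup := by
      rw [IntermediateField.fixingSubgroup_sup]
      exact ⟨h1, h1'⟩
    ext x
    have h5 := (IntermediateField.mem_fixingSubgroup_iff _ _).1 h4 x x.2
    have h6 : g' ((g'⁻¹ * g) x) = g' x := congrArg g' h5
    rw [← AlgEquiv.mul_apply, mul_inv_cancel_left] at h6
    rw [← hg x, ← hg' x, h6]
  have hcard : Fintype.card ((K ⊔ K₀ : IntermediateField ℚ A) →ₐ[ℚ] A) =
      Fintype.card ((K →ₐ[ℚ] A) × (K₀ →ₐ[ℚ] A)) := by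
    rw [Fintype.card_prod, card_emb, card_emb, card_emb, hdeg]
  have hbij : Function.Bijective e := (Fintype.bijective_iff_injective_and_card e).2 ⟨hinj, hcard⟩
  refine Fintype.sum_bijective e hbij _ _ fun τ => ?_
  have hiff : ((γ : A →ₐ[ℚ] A).comp τ = τ) ↔ ((γ : A →ₐ[ℚ] A).comp (e τ).1 = (e τ).1 ∧
      (γ : A →ₐ[ℚ] A).comp (e τ).2 = (e τ).2) := by
    constructor
    · intro h
      refine ⟨?_, ?_⟩
      · change ((γ : A →ₐ[ℚ] A).comp τ).comp _ = _
        rw [h]
      · change ((γ : A →ₐ[ℚ] A).comp τ).comp _ = _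
        rw [h]
    · rintro ⟨h1, h2⟩
      exact hinj (Prod.ext h1 h2)
  by_cases h : (γ : A →ₐ[ℚ] A).comp τ = τ
  · obtain ⟨h1, h2⟩ := hiff.1 h
    rw [if_pos h, if_pos h1, if_pos h2, mul_one]
  · rw [if_neg h]
    by_cases h1 : (γ : A →ₐ[ℚ] A).comp (e τ).1 = (e τ).1
    · have h2 : ¬ (γ : A →ₐ[ℚ] A).comp (e τ).2 = (e τ).2 := fun h2 => h (hiff.2 ⟨h1, h2⟩)
      rw [if_neg h2, mul_zero]
    · rw [if_neg h1, zero_mul]

/-- **(2)** -/
theorem large_descent (K' : IntermediateField ℚ A) [FiniteDimensional ℚ K'] (N : ℕ)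
    (F₀ : IntermediateField ℚ A) [FiniteDimensional ℚ F₀] (hF₀ : K' ≤ F₀)
    (h : ∀ (K₀ : IntermediateField ℚ A) [FiniteDimensional ℚ K₀]
      [FiniteDimensional ℚ (K' ⊔ K₀ : IntermediateField ℚ A)], IsAbelianGalois ℚ K₀ →
      IsTotallyReal K₀ → N ≤ Module.finrank ℚ K₀ → K₀ ⊓ F₀ = ⊥ →
      Beilinson1 X (K' ⊔ K₀) ∧ Beilinson2 X (K' ⊔ K₀)) : Beilinson1 X K' ∧ Beilinson2 X K' := by
  classical
  have hG : IsGalois ℚ A := isGalois
  obtain ⟨p, hp1, hp⟩ := Nat.exists_infinite_primes (N + 3)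
  obtain ⟨q, hq1, hq⟩ := Nat.exists_infinite_primes (p + 1)
  have hpos : 0 < p * q := Nat.mul_pos hp.pos hq.pos
  obtain ⟨π, hsurj, hπ, hdis⟩ := DS.exists_disjoint DS.cycJ (p * q) hpos F₀
  have : NeZero (p * q) := ⟨hpos.ne'⟩
  have hle₀ : F₀.fixingSubgroup ≤ K'.fixingSubgroup :=
    IntermediateField.fixingSubgroup_antitone hF₀
  obtain ⟨B, C, hB, hC, hB0, hC0, hrel⟩ := DS.solomon (G := DS.CC (p * q))
  have hodd : Odd (Nat.card (DS.CC (p * q))) := by
    have h1 : Nat.card (DS.CC (p * q)) = (p * q) * (p * q) := by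
      rw [Nat.card_prod, Nat.card_congr Multiplicative.toAdd, Nat.card_zmod]
    rw [h1]
    have hp2 : Odd p := hp.odd_of_ne_two (by omega)
    have hq2 : Odd q := hq.odd_of_ne_two (by omega)
    exact (hp2.mul hq2).mul (hp2.mul hq2)
  let f : Subgroup (DS.CC (p * q)) → (A ≃ₐ[ℚ] A) → ℚ := fun V γ =>
    (permRep K' γ).trace * ind V (fun _ => (1 : ℚ)) (π γ)
  have hnice : ∀ V : Subgroup (DS.CC (p * q)), Hyper V → BNice X (f V) := by
    intro V hV
    obtain ⟨K₀, hK₀, -, hK₀V⟩ := Helper8K9.DG.cor ⊤ _ π hπ V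
    obtain ⟨h1, h2, h3⟩ := DS.atr (DS.CC (p * q)) π hodd hsurj V K₀ hK₀V
    have hfd : FiniteDimensional ℚ (K' ⊔ K₀ : IntermediateField ℚ A) :=
      IntermediateField.finiteDimensional_sup K' K₀
    have hdeg : Module.finrank ℚ (K' ⊔ K₀ : IntermediateField ℚ A) =
        Module.finrank ℚ K' * Module.finrank ℚ K₀ := by
      rw [← IntermediateField.finrank_bot_mul_relfinrank (le_sup_left : K' ≤ K' ⊔ K₀),
        ← index_gal K' (K' ⊔ K₀) le_sup_left, h3]
      congr 1
      have h4 : gal K' (K' ⊔ K₀) = V.comap (π.comp K'.fixingSubgroup.subtype) := by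
        ext γ
        rw [Subgroup.mem_subgroupOf, IntermediateField.fixingSubgroup_sup, hK₀V, Subgroup.mem_inf,
          Subgroup.mem_comap, Subgroup.mem_comap]
        exact ⟨fun h => h.2, fun h => ⟨γ.2, h⟩⟩
      rw [h4, Subgroup.index_comap_of_surjective]
      intro g
      obtain ⟨γ, hγ, h5⟩ := hdis g
      exact ⟨⟨γ, hle₀ hγ⟩, h5⟩
    refine ⟨(K' ⊔ K₀ : IntermediateField ℚ A) →ₐ[ℚ] A, inferInstance, inferInstance,
      permRep (K' ⊔ K₀), isFinite_permRep _, fun γ => ?_,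
      (bgood_iff X _).2 (h K₀ h1 h2 ?_ (DS.inf_eq_bot hK₀V hdis))⟩
    · rw [trace_sup K' K₀ hdeg γ]
      simp only [f]
      rw [trace_perm hsurj V K₀ hK₀V γ]
    · rw [h3]
      refine le_trans ?_ (DS.big p q hp hq (by omega) V hV)
      exact le_min (by omega) (by omega)
  have hsum : ∀ (l : List (Subgroup (DS.CC (p * q)))) (γ : A ≃ₐ[ℚ] A),
      (l.map fun V => f V γ).sum =
        (permRep K' γ).trace * (l.map fun V => ind V (fun _ => (1 : ℚ)) (π γ)).sum := by
    intro l γ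
    induction l with
    | nil => simp
    | cons V l ih =>
      rw [List.map_cons, List.sum_cons, ih, List.map_cons, List.sum_cons, mul_add]
  refine (bgood_iff X K').1 (bgood_of_char X (permRep K') (isFinite_permRep K')
    (BNice.list X f B hB0 fun V hV => hnice V (hB V hV))
    (BNice.list X f C hC0 fun V hV => hnice V (hC V hV)) fun γ => ?_)
  rw [hsum, hsum, ← hrel (π γ), mul_add, mul_one]

end Pool.Agent.Helper78K9.BK
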