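import Mathlib

/-!
# Determinants of real-valued pairings between rational vector spaces
-/

set_option autoImplicit false

namespace Pool.Agent.Helper78K9.BK

open Matrix

section
variable {H B H₁ B₁ : Type} [AddCommGroup H] [Module ℚ H] [AddCommGroup B] [Module ℚ B]
  [AddCommGroup H₁] [Module ℚ H₁] [AddCommGroup B₁] [Module ℚ B₁]

/-- the matrix of the pairing `P` -/
noncomputable def gram {κ : Type} (P : H →ₗ[ℚ] B →ₗ[ℚ] ℝ) (b : κ → H) (e : κ → B) : Matrix κ κ ℝ :=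
  Matrix.of fun i j => P (b i) (e j)

/-- `R` is the determinant of the pairing `P` in bases indexed by `κ` -/
def HasReg (P : H →ₗ[ℚ] B →ₗ[ℚ] ℝ) (κ : Type) [Fintype κ] [DecidableEq κ] (R : ℝ) : Prop :=
  ∃ (b : Module.Basis κ ℚ H) (e : Module.Basis κ ℚ B), R = (gram P b e).det

/-- both spaces have the dimension `m`, and the pairing is nondegenerate -/
def IsPerfect (P : H →ₗ[ℚ] B →ₗ[ℚ] ℝ) (m : ℕ) : Prop :=
  ∃ (b : Module.Basis (Fin m) ℚ H) (e : Module.Basis (Fin m) ℚ B), (gram P b e).det ≠ 0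

/-- `z` is the product of a nonzero rational number and the determinant of the pairing, for all bases
with `m` elements -/
def IsMulDet (P : H →ₗ[ℚ] B →ₗ[ℚ] ℝ) (m : ℕ) (z : ℂ) : Prop :=
  ∀ (b : Module.Basis (Fin m) ℚ H) (e : Module.Basis (Fin m) ℚ B),
    ∃ q : ℚ, q ≠ 0 ∧ z = (q : ℂ) * (((gram P b e).det : ℝ) : ℂ)

variable {P : H →ₗ[ℚ] B →ₗ[ℚ] ℝ} {P₁ : H₁ →ₗ[ℚ] B₁ →ₗ[ℚ] ℝ}

/-- change of bases -/
theorem gram_change {κ : Type} [Fintype κ] [DecidableEq κ] (P : H →ₗ[ℚ] B →ₗ[ℚ] ℝ)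
    (b b' : Module.Basis κ ℚ H) (e e' : Module.Basis κ ℚ B) :
    ∃ q : ℚ, q ≠ 0 ∧ (gram P b' e').det = q * (gram P b e).det := by
  have h : gram P b' e' = ((b.toMatrix b').map (Rat.castHom ℝ))ᵀ * gram P b e *
      (e.toMatrix e').map (Rat.castHom ℝ) := by
    ext i j
    have h1 : b' i = ∑ k, b.toMatrix b' k i • b k := (b.sum_toMatrix_smul_self b' i).symm
    have h2 : e' j = ∑ l, e.toMatrix e' l j • e l := (e.sum_toMatrix_smul_self e' j).symm
    rw [Matrix.mul_apply]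
    simp only [Matrix.mul_apply, gram, Matrix.of_apply, Matrix.transpose_apply, Matrix.map_apply,
      Rat.coe_castHom]
    have h3 : P (b' i) (e' j) = P (∑ k, b.toMatrix b' k i • b k)
        (∑ l, e.toMatrix e' l j • e l) := by rw [← h1, ← h2]
    have h4 : P (∑ k, b.toMatrix b' k i • b k) = ∑ k, b.toMatrix b' k i • P (b k) := by
      rw [map_sum]
      exact Finset.sum_congr rfl fun k _ => map_smul _ _ _
    rw [h3, h4, map_sum]
    refine Finset.sum_congr rfl fun l _ => ?_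
    rw [map_smul, LinearMap.sum_apply, Finset.sum_mul, Finset.smul_sum]
    refine Finset.sum_congr rfl fun k _ => ?_
    rw [LinearMap.smul_apply, Rat.smul_def, Rat.smul_def]
    ring
  refine ⟨(b.toMatrix b').det * (e.toMatrix e').det, mul_ne_zero ?_ ?_, ?_⟩
  · have h1 := b.toMatrix_mul_toMatrix_flip b'
    intro h0
    have h2 := congrArg Matrix.det h1
    rw [Matrix.det_mul, h0, zero_mul, Matrix.det_one] at h2
    exact zero_ne_one h2
  · have h1 := e.toMatrix_mul_toMatrix_flip e'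
    intro h0
    have h2 := congrArg Matrix.det h1
    rw [Matrix.det_mul, h0, zero_mul, Matrix.det_one] at h2
    exact zero_ne_one h2
  · rw [h, Matrix.det_mul, Matrix.det_mul, Matrix.det_transpose, ← RingHom.mapMatrix_apply,
      ← RingHom.mapMatrix_apply, ← RingHom.map_det, ← RingHom.map_det, Rat.coe_castHom,
      Rat.cast_mul]
    ring

theorem HasReg.unique {κ : Type} [Fintype κ] [DecidableEq κ] {R R' : ℝ} (h : HasReg P κ R)
    (h' : HasReg P κ R') : ∃ q : ℚ, q ≠ 0 ∧ R' = q * R := by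
  obtain ⟨b, e, rfl⟩ := h
  obtain ⟨b', e', rfl⟩ := h'
  exact gram_change P b b' e e'

theorem HasReg.reindex {κ κ' : Type} [Fintype κ] [DecidableEq κ] [Fintype κ'] [DecidableEq κ']
    (f : κ ≃ κ') {R : ℝ} (h : HasReg P κ R) : HasReg P κ' R := by
  obtain ⟨b, e, rfl⟩ := h
  refine ⟨b.reindex f, e.reindex f, ?_⟩
  have h1 : gram P (b.reindex f) (e.reindex f) = (gram P b e).submatrix f.symm f.symm := by
    ext i j
    simp [gram]
  rw [h1, Matrix.det_submatrix_equiv_self]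

theorem HasReg.transport {κ : Type} [Fintype κ] [DecidableEq κ] (f : H ≃ₗ[ℚ] H₁)
    (g : B ≃ₗ[ℚ] B₁) (hfg : ∀ x y, P₁ (f x) (g y) = P x y) {R : ℝ} (h : HasReg P κ R) :
    HasReg P₁ κ R := by
  obtain ⟨b, e, rfl⟩ := h
  refine ⟨b.map f, e.map g, ?_⟩
  congr 1
  ext i j
  simp [gram, hfg]

/-- the orthogonal sum of two pairings -/
noncomputable def prodPair (P : H →ₗ[ℚ] B →ₗ[ℚ] ℝ) (P₁ : H₁ →ₗ[ℚ] B₁ →ₗ[ℚ] ℝ) :
    (H × H₁) →ₗ[ℚ] (B × B₁) →ₗ[ℚ] ℝ :=
  P.compl₁₂ (LinearMap.fst ℚ H H₁) (LinearMap.fst ℚ B B₁) +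
    P₁.compl₁₂ (LinearMap.snd ℚ H H₁) (LinearMap.snd ℚ B B₁)

theorem prodPair_apply (x : H × H₁) (y : B × B₁) :
    prodPair P P₁ x y = P x.1 y.1 + P₁ x.2 y.2 := rfl

theorem HasReg.prod {κ κ₁ : Type} [Fintype κ] [DecidableEq κ] [Fintype κ₁] [DecidableEq κ₁]
    {R R₁ : ℝ} (h : HasReg P κ R) (h₁ : HasReg P₁ κ₁ R₁) :
    HasReg (prodPair P P₁) (κ ⊕ κ₁) (R * R₁) := by
  obtain ⟨b, e, rfl⟩ := h
  obtain ⟨b₁, e₁, rfl⟩ := h₁
  refine ⟨b.prod b₁, e.prod e₁, ?_⟩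
  have h1 : gram (prodPair P P₁) (b.prod b₁) (e.prod e₁) =
      fromBlocks (gram P b e) 0 0 (gram P₁ b₁ e₁) := by
    ext i j
    rcases i with i | i <;> rcases j with j | j <;>
      simp [gram, prodPair_apply]
  rw [h1, Matrix.det_fromBlocks_zero₁₂]

end

end Pool.Agent.Helper78K9.BK
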