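import Pool.Agent.Helper51K9.TI.Abs
import Pool.Agent.Helper51K9.TI.Delta
import Pool.Agent.Helper78K9.DS.Defs
import Pool.Agent.Helper78K9.BK.Lin

/-!
# `K_2` of curves over number fields: regulators, L-functions, Beilinson's conjecture
-/

set_option autoImplicit false

namespace Pool.Agent.Helper78K9.BK

open Matrix Polynomial Filter Topology NumberField Pool.Agent.Helper51K9.TI

section

variable {A : Type} [Field A] [CharZero A]

/-- **The data of a curve `C` over a number field `k`, viewed over `ℚ`**, as far as they are used;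
`A` is an algebraic closure of `ℚ` and `d = g [k : ℚ]`:

* `H^1` of `C` (of rank `2 d`) in the `λ`-adic realizations, with coefficients extended to algebraically
  closed fields, an inertia group and a geometric Frobenius element for every prime `p`;
* the space `H = H^2_M(C_A, ℚ(2))_ℤ`, the union of the integral parts of the motivic cohomology of
  the curves `C_K` over all number fields `K` (a subset of `K_2 ⊗ ℚ` of the function field), with the action
  of the Galois group of `ℚ`; the elements fixed by the Galois group of `K` are those of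
  `H^2_M(C_K, ℚ(2))_ℤ`;
* an embedding of `A` in `ℂ`, the complex conjugation `c`, and `H_1(C(ℂ), ℚ)` (of rank `2 d`) with the
  involution `F_∞`, whose eigenspace for `-1` has the rank `d`;
* Beilinson's regulator `reg ξ b` for `ξ` in `H` and `b` in `H_1(C(ℂ), ℚ)`, for the embedding of `A`. -/
structure CurveData (A : Type) [Field A] [CharZero A] (d : ℕ) extends
    Realizations (A ≃ₐ[ℚ] A) ℚ (2 * d) Nat.Primes where
  isFrob : ∀ p : Nat.Primes, Helper8K9.DG.IsInertiaFrobenius p.1 (inertia p) (frob p)
  norm_eq : ∀ p : Nat.Primes, norm p = p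
  emb : A →+* ℂ
  c : A ≃ₐ[ℚ] A
  isConj : IsConj emb c
  H : Type
  [group : AddCommGroup H]
  [module : Module ℚ H]
  gal : (A ≃ₐ[ℚ] A) →* Module.End ℚ H
  smooth : ∀ ξ : H, ∃ K : IntermediateField ℚ A, FiniteDimensional ℚ K ∧
    ∀ γ ∈ K.fixingSubgroup, gal γ ξ = ξ
  Finf : Module.End ℚ (Fin (2 * d) → ℚ)
  Finf_sq : Finf * Finf = 1
  minus : Module.finrank ℚ (LinearMap.ker (Finf + 1)) = d
  reg : H →ₗ[ℚ] (Fin (2 * d) → ℚ) →ₗ[ℚ] ℝ
  reg_conj : ∀ ξ b, reg (gal c ξ) (Finf b) = - reg ξ b

attribute [instance] CurveData.group CurveData.module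

/-- the embeddings of `K` -/
abbrev Emb (K : IntermediateField ℚ A) : Type := K →ₐ[ℚ] A

variable {d : ℕ} (X : CurveData A d)

/-- `H^2_M(C_K, ℚ(2))_ℤ`: an element is given by its conjugates, for the embeddings `τ` of `K` -/
def motivic (K : IntermediateField ℚ A) : Submodule ℚ (Emb K → X.H) where
  carrier := {f | ∀ (γ : A ≃ₐ[ℚ] A) (τ : Emb K),
    f ((γ : A →ₐ[ℚ] A).comp τ) = X.gal γ (f τ)}
  add_mem' {f g} hf hg γ τ := by
    rw [Pi.add_apply, Pi.add_apply, hf, hg, map_add]
  zero_mem' γ τ := by
    rw [Pi.zero_apply, Pi.zero_apply, map_zero]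
  smul_mem' q f hf γ τ := by
    rw [Pi.smul_apply, Pi.smul_apply, hf, map_smul]

/-- `H_1(C_K(ℂ), ℚ)^-`: `C_K(ℂ)` is the disjoint union of copies of `C(ℂ)` for the embeddings `τ` of
`K`, and `F_∞` maps the copy for `τ` to the one for `c ∘ τ` -/
def homology (K : IntermediateField ℚ A) :
    Submodule ℚ (Emb K → (Fin (2 * d) → ℚ)) where
  carrier := {b | ∀ τ : Emb K, X.Finf (b τ) = - b ((X.c : A →ₐ[ℚ] A).comp τ)}
  add_mem' {f g} hf hg τ := by
    rw [Pi.add_apply, Pi.add_apply, map_add, hf, hg, neg_add]
  zero_mem' τ := by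
    rw [Pi.zero_apply, Pi.zero_apply, map_zero, neg_zero]
  smul_mem' q f hf τ := by
    rw [Pi.smul_apply, Pi.smul_apply, map_smul, hf, smul_neg]

/-- the sum of the regulators, for families of elements indexed by `n` -/
noncomputable def pairAll (n : Type) [Fintype n] :
    (n → X.H) →ₗ[ℚ] (n → (Fin (2 * d) → ℚ)) →ₗ[ℚ] ℝ :=
  ∑ i, X.reg.compl₁₂ (LinearMap.proj i) (LinearMap.proj i)

/-- the regulator pairing of `H^2_M(C_K, ℚ(2))_ℤ` and `H_1(C_K(ℂ), ℚ)^-` -/
noncomputable def regulator (K : IntermediateField ℚ A) [FiniteDimensional ℚ K] :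
    motivic X K →ₗ[ℚ] homology X K →ₗ[ℚ] ℝ :=
  (pairAll X (Emb K)).domRestrict₁₂ (motivic X K) (homology X K)

open Classical in
/-- the permutation representation of the Galois group of `ℚ` on the embeddings of `K`: `H^1` of `C_K`,
viewed over `ℚ`, is `H^1` of `C` times this representation -/
noncomputable def permRep (K : IntermediateField ℚ A) [FiniteDimensional ℚ K] :
    (A ≃ₐ[ℚ] A) →* Matrix (Emb K) (Emb K) ℚ where
  toFun := DS.permMatrix ℚ K
  map_one' := DS.permMatrix_one K
  map_mul' := DS.permMatrix_mul K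

/-- **Q1 for `C_K`**: `H^2_M(C_K, ℚ(2))_ℤ` and `H_1(C_K(ℂ), ℚ)^-` have the dimension `g [kK : ℚ] =
d [K : ℚ]`, and the regulator pairing is nondegenerate -/
def Beilinson1 (K : IntermediateField ℚ A) [FiniteDimensional ℚ K] : Prop :=
  IsPerfect (regulator X K) (d * Module.finrank ℚ K)

open Classical in
/-- **Q2 for `C_K`**: the L-function of `C_K` exists (it is meromorphic in the complex plane, equal to
the Euler product and without zeros in a right half plane), at `s = 0` it has a zero of the exact order
`d [K : ℚ]`, and the leading coefficient is the product of a nonzero rational number and the determinant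
of the regulator pairing, for all bases of the two spaces -/
def Beilinson2 (K : IntermediateField ℚ A) [FiniteDimensional ℚ K] : Prop :=
  HasL X.toRealizations (permRep K) ∧
    ∀ L, IsLFunction X.toRealizations (permRep K) L → ∀ τ : ℚ →+* ℂ,
      meromorphicOrderAt (L τ) 0 = (d * Module.finrank ℚ K : ℕ) ∧
      IsMulDet (regulator X K) (d * Module.finrank ℚ K) (meromorphicTrailingCoeffAt (L τ) 0)

end

end Pool.Agent.Helper78K9.BK
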