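import Pool.Agent.Helper78K9.BK.Sub
import Pool.Agent.Helper78K9.DS.Gal

/-!
# Beilinson's conjecture for `K_2` of curves: descent
-/

set_option autoImplicit false
set_option linter.unusedSectionVars false

namespace Pool.Agent.Helper78K9.BK

open Matrix Polynomial Filter Topology NumberField Pool.Agent.Helper51K9.TI

open Pool.Agent.R389 (Hyper ind_ind ind)

variable {A : Type} [Field A] [CharZero A] [IsAlgClosed A] [Algebra.IsAlgebraic ℚ A] {d : ℕ}
  (X : CurveData A d)

section bridge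

variable (K : IntermediateField ℚ A) [FiniteDimensional ℚ K]

open Classical in
theorem permRep_apply (γ : A ≃ₐ[ℚ] A) (τ τ' : K →ₐ[ℚ] A) :
    permRep K γ τ τ' = if (γ : A →ₐ[ℚ] A).comp τ' = τ then 1 else 0 := rfl

theorem card_emb : Fintype.card (K →ₐ[ℚ] A) = Module.finrank ℚ K := AlgHom.card ℚ K A

open Classical in
theorem mot_eq : Mot X (permRep K) = motivic X K := by
  ext f
  have h : ∀ γ : A ≃ₐ[ℚ] A, mv (permRep K γ)ᵀ f =
      fun τ => f ((γ : A →ₐ[ℚ] A).comp τ) := by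
    intro γ
    funext τ
    simp [mv, permRep_apply]
  constructor
  · intro hf γ τ
    have h1 := congrFun (hf γ) τ
    rw [h γ] at h1
    exact h1.symm
  · intro hf γ
    rw [h γ]
    funext τ
    exact (hf γ τ).symm

open Classical in
theorem hom_eq : Hom X (permRep K) = homology X K := by
  ext f
  have h : ∀ (g : (K →ₐ[ℚ] A) → (Fin (2 * d) → ℚ)) (τ : K →ₐ[ℚ] A),
      mv (permRep K X.c) g ((X.c : A →ₐ[ℚ] A).comp τ) = g τ := by
    intro g τ
    simp only [mv, permRep_apply]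
    rw [Finset.sum_eq_single τ]
    · rw [if_pos rfl, one_smul]
    · intro τ' _ hne
      rw [if_neg, zero_smul]
      intro h
      apply hne
      ext x
      exact X.c.injective (DFunLike.congr_fun h x)
    · intro h
      exact absurd (Finset.mem_univ _) h
  constructor
  · intro hf τ
    have h1 : mv (permRep K X.c) (fun i => X.Finf (f i)) = -f := hf
    have h2 := congrFun h1 ((X.c : A →ₐ[ℚ] A).comp τ)
    rw [h] at h2
    exact h2
  · intro hf
    change mv (permRep K X.c) (fun i => X.Finf (f i)) = -f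
    funext τ
    obtain ⟨τ', rfl⟩ : ∃ τ' : K →ₐ[ℚ] A, (X.c : A →ₐ[ℚ] A).comp τ' = τ := by
      refine ⟨((X.c.symm : A ≃ₐ[ℚ] A) : A →ₐ[ℚ] A).comp τ, ?_⟩
      ext x
      exact X.c.apply_symm_apply _
    rw [h]
    exact hf τ'

/-- the two forms of the regulator pairing -/
theorem hasReg_iff (κ : Type) [Fintype κ] [DecidableEq κ] (R : ℝ) :
    (open Classical in HasReg (pairSig X (permRep K)) κ R) ↔ HasReg (regulator X K) κ R := by
  classical
  constructor
  · intro h
    exact h.transport (LinearEquiv.ofEq _ _ (mot_eq X K)) (LinearEquiv.ofEq _ _ (hom_eq X K))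
      fun x y => rfl
  · intro h
    exact h.transport (LinearEquiv.ofEq _ _ (mot_eq X K).symm)
      (LinearEquiv.ofEq _ _ (hom_eq X K).symm) fun x y => rfl

open Classical in
theorem bgood_iff : BGood X (permRep K) ↔ Beilinson1 X K ∧ Beilinson2 X K := by
  have hN : d * Fintype.card (K →ₐ[ℚ] A) = d * Module.finrank ℚ K := by rw [card_emb]
  constructor
  · rintro ⟨R, L, hR, hr, hL, hz, ht⟩
    have hr' := ((hasReg_iff X K _ R).1 hr).reindex (finCongr hN)
    refine ⟨?_, ⟨L, hL, hz⟩, fun L' hL' τ => ⟨?_, fun b e => ?_⟩⟩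
    · obtain ⟨b, e, h⟩ := hr'
      exact ⟨b, e, by rw [← h]; exact hR⟩
    · rw [meromorphicOrderAt_congr (hL'.eventuallyEq _ hL τ 0), (ht τ).1, hN]
    · obtain ⟨q, hq, h1⟩ := hr'.unique ⟨b, e, rfl⟩
      obtain ⟨q', hq', h2⟩ := (ht τ).2
      refine ⟨q' / q, div_ne_zero hq' hq, ?_⟩
      have hq0 : (q : ℂ) ≠ 0 := Rat.cast_ne_zero.2 hq
      rw [meromorphicTrailingCoeffAt_congr_nhdsNE (hL'.eventuallyEq _ hL τ 0), h2, h1]
      push_cast
      field_simp
  · rintro ⟨⟨b, e, h⟩, ⟨L, hL, hz⟩, h2⟩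
    refine ⟨_, L, h, ?_, hL, hz, fun τ => ?_⟩
    · exact ((hasReg_iff X K _ _).2 ⟨b, e, rfl⟩).reindex (finCongr hN.symm)
    · obtain ⟨h3, h4⟩ := h2 L hL τ
      exact ⟨by rw [h3, hN], h4 b e⟩

open Classical in
theorem isFinite_permRep : Helper8K9.DG.IsFinite ⊤ (permRep K) := by
  refine ⟨IntermediateField.normalClosure ℚ K A, inferInstance, le_top, fun γ hγ => ?_⟩
  ext τ τ'
  rw [permRep_apply, Matrix.one_apply]
  have h : (γ : A →ₐ[ℚ] A).comp τ' = τ' := by
    ext x
    have h1 : τ' x ∈ IntermediateField.normalClosure ℚ K A :=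
      (AlgHom.fieldRange_le_normalClosure τ') ⟨x, rfl⟩
    exact (IntermediateField.mem_fixingSubgroup_iff _ _).1 hγ _ h1
  rw [h]
  by_cases h2 : τ = τ'
  · rw [if_pos h2, if_pos h2.symm]
  · rw [if_neg h2, if_neg fun h3 => h2 h3.symm]

end bridge

section nice

/-- characters of representations for which Beilinson's conjecture holds -/
def BNice (f : (A ≃ₐ[ℚ] A) → ℚ) : Prop := ∃ (n : Type) (_ : Fintype n) (_ : DecidableEq n)
  (σ : (A ≃ₐ[ℚ] A) →* Matrix n n ℚ), Helper8K9.DG.IsFinite ⊤ σ ∧ (∀ γ, (σ γ).trace = f γ) ∧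
    BGood X σ

theorem isFinite_dsum {n n' : Type} [Fintype n] [DecidableEq n] [Fintype n'] [DecidableEq n']
    {σ : (A ≃ₐ[ℚ] A) →* Matrix n n ℚ} {σ' : (A ≃ₐ[ℚ] A) →* Matrix n' n' ℚ}
    (h : Helper8K9.DG.IsFinite ⊤ σ) (h' : Helper8K9.DG.IsFinite ⊤ σ') :
    Helper8K9.DG.IsFinite ⊤ (dsum σ σ') := by
  obtain ⟨F, hF, -, h1⟩ := h
  obtain ⟨F', hF', -, h1'⟩ := h'
  refine ⟨F ⊔ F', IntermediateField.finiteDimensional_sup F F', le_top, fun γ hγ => ?_⟩
  have h2 : γ ∈ F.fixingSubgroup := IntermediateField.fixingSubgroup_antitone le_sup_left hγ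
  have h3 : γ ∈ F'.fixingSubgroup := IntermediateField.fixingSubgroup_antitone le_sup_right hγ
  rw [dsum_apply, h1 γ h2, h1' γ h3, fromBlocks_one]

theorem BNice.add {f g : (A ≃ₐ[ℚ] A) → ℚ} (hf : BNice X f) (hg : BNice X g) :
    BNice X (fun γ => f γ + g γ) := by
  obtain ⟨n, _, _, σ, h1, h2, h3⟩ := hf
  obtain ⟨n', _, _, σ', h1', h2', h3'⟩ := hg
  exact ⟨n ⊕ n', inferInstance, inferInstance, dsum σ σ', isFinite_dsum h1 h1', fun γ => by
    rw [trace_dsum, h2, h2'], h3.dsum X h3'⟩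

theorem BNice.list {Y : Type} (f : Y → (A ≃ₐ[ℚ] A) → ℚ) : ∀ l : List Y, l ≠ [] →
    (∀ V ∈ l, BNice X (f V)) → BNice X (fun γ => (l.map fun V => f V γ).sum)
  | [], h, _ => absurd rfl h
  | [V], _, h => by
    simpa using h V (by simp)
  | V :: V' :: l, _, h => by
    have h1 := BNice.list f (V' :: l) (by simp) (fun U hU => h U (List.mem_cons_of_mem V hU))
    have h2 := (h V (by simp)).add X h1
    exact h2

/-- Beilinson's conjecture for a difference of characters -/
theorem bgood_of_char {n : Type} [Fintype n] [DecidableEq n] (σ : (A ≃ₐ[ℚ] A) →* Matrix n n ℚ)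
    (hσ : Helper8K9.DG.IsFinite ⊤ σ) {f₁ f₂ : (A ≃ₐ[ℚ] A) → ℚ} (h₁ : BNice X f₁)
    (h₂ : BNice X f₂) (h : ∀ γ, (σ γ).trace + f₂ γ = f₁ γ) : BGood X σ := by
  obtain ⟨n₁, _, _, σ₁, a1, a2, a3⟩ := h₁
  obtain ⟨n₂, _, _, σ₂, b1, b2, b3⟩ := h₂
  have htr : ∀ γ, (dsum σ σ₂ γ).trace = (σ₁ γ).trace := by
    intro γ
    rw [trace_dsum, b2, a2, h]
  obtain ⟨C, D, hCD, hDC, hC⟩ := Helper8K9.DG.iso ℚ ⊤ (n ⊕ n₂) n₁ (dsum σ σ₂) σ₁
    (isFinite_dsum hσ b1) a1 htr
  refine a3.sub X b3 C D hCD hDC hC ?_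
  have h5 := htr 1
  rw [map_one, map_one, Matrix.trace_one, Matrix.trace_one, Fintype.card_sum] at h5
  exact_mod_cast h5

end nice

section solomon

variable {G : Type} [Group G] [Finite G]

/-- Solomon's relation for a subgroup -/
theorem solomon_sub (U : Subgroup G) : ∃ B C : List (Subgroup G), (∀ V ∈ B, Hyper V ∧ V ≤ U) ∧
    (∀ V ∈ C, Hyper V ∧ V ≤ U) ∧ B ≠ [] ∧ C ≠ [] ∧ ∀ g : G, ind U (fun _ => (1 : ℚ)) g +
      (C.map fun V => ind V (fun _ => (1 : ℚ)) g).sum =
      (B.map fun V => ind V (fun _ => (1 : ℚ)) g).sum := by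
  obtain ⟨B, C, hB, hC, hB0, hC0, h⟩ := DS.solomon (G := U)
  have hmap : ∀ V : Subgroup U, Hyper V → Hyper (V.map U.subtype) ∧ V.map U.subtype ≤ U := by
    intro V hV
    refine ⟨?_, ?_⟩
    · exact Pool.Agent.R389.Hyper.of_injective
        ((V.equivMapOfInjective U.subtype U.subtype_injective).symm : V.map U.subtype →* V)
        (MulEquiv.injective _) hV
    · rintro _ ⟨x, -, rfl⟩
      exact x.2
  have hind : ∀ (l : List (Subgroup U)), ind U (fun u => (l.map fun V =>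
      ind V (fun _ => (1 : ℚ)) u).sum) = fun g => ((l.map fun V => V.map U.subtype).map fun V =>
        ind V (fun _ => (1 : ℚ)) g).sum := by
    intro l
    induction l with
    | nil =>
      have h0 := Pool.Agent.R389.ind_zero (k := ℚ) U
      simpa [Pi.zero_def] using h0
    | cons V l ih =>
      have h1 : (fun u : U => (((V :: l).map fun V => ind V (fun _ => (1 : ℚ)) u).sum)) =
          ind V (fun _ => (1 : ℚ)) + fun u => (l.map fun V => ind V (fun _ => (1 : ℚ)) u).sum := by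
        funext u
        simp
      rw [h1, Pool.Agent.R389.ind_add, ih, ind_ind]
      funext g
      simp only [List.map_cons, List.sum_cons, Pi.add_apply]
      rfl
  refine ⟨B.map fun V => V.map U.subtype, C.map fun V => V.map U.subtype, ?_, ?_, by simpa using hB0,
    by simpa using hC0, fun g => ?_⟩
  · intro V hV
    obtain ⟨W, hW, rfl⟩ := List.mem_map.1 hV
    exact hmap W (hB W hW)
  · intro V hV
    obtain ⟨W, hW, rfl⟩ := List.mem_map.1 hV
    exact hmap W (hC W hW)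
  · have h1 : (fun _ : U => (1 : ℚ)) + (fun u => (C.map fun V => ind V (fun _ => (1 : ℚ)) u).sum) =
        fun u => (B.map fun V => ind V (fun _ => (1 : ℚ)) u).sum := funext fun u => h u
    have h2 := congrFun (congrArg (ind U) h1) g
    rw [Pool.Agent.R389.ind_add, hind, hind] at h2
    exact h2

end solomon

end Pool.Agent.Helper78K9.BK
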