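import Pool.Agent.Helper78K9.BK.Def
import Pool.Agent.Helper51K9.TI.LF

/-!
# Regulators of the curve, twisted by rational representations
-/

set_option autoImplicit false
set_option linter.unusedSectionVars false

namespace Pool.Agent.Helper78K9.BK

open Matrix Polynomial Filter Topology NumberField Pool.Agent.Helper51K9.TI

section mv

variable {W W' : Type} [AddCommGroup W] [Module ℚ W] [AddCommGroup W'] [Module ℚ W']
  {m n k : Type} [Fintype m] [Fintype n] [Fintype k]

/-- a matrix acts on the vectors with entries in `W` -/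
def mv (A : Matrix m n ℚ) (f : n → W) : m → W := fun i => ∑ j, A i j • f j

omit [Fintype m] in
theorem mv_mul (A : Matrix m n ℚ) (B : Matrix n k ℚ) (f : k → W) :
    mv (A * B) f = mv A (mv B f) := by
  funext i
  simp only [mv, Matrix.mul_apply, Finset.sum_smul, Finset.smul_sum]
  rw [Finset.sum_comm]
  exact Finset.sum_congr rfl fun j _ => Finset.sum_congr rfl fun l _ => mul_smul _ _ _

theorem mv_one [DecidableEq n] (f : n → W) : mv (1 : Matrix n n ℚ) f = f := by
  funext i
  simp [mv, Matrix.one_apply]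

omit [Fintype m] in
theorem map_mv (φ : W →ₗ[ℚ] W') (A : Matrix m n ℚ) (f : n → W) :
    (fun i => φ (mv A f i)) = mv A (fun j => φ (f j)) := by
  funext i
  simp [mv]

omit [Fintype m] in
theorem mv_add (A : Matrix m n ℚ) (f g : n → W) : mv A (f + g) = mv A f + mv A g := by
  funext i
  simp [mv, Finset.sum_add_distrib]

omit [Fintype m] in
theorem mv_smul (A : Matrix m n ℚ) (q : ℚ) (f : n → W) : mv A (q • f) = q • mv A f := by
  funext i
  simp only [mv, Pi.smul_apply, Finset.smul_sum]
  exact Finset.sum_congr rfl fun j _ => smul_comm _ _ _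

omit [Fintype m] in
theorem mv_neg (A : Matrix m n ℚ) (f : n → W) : mv A (-f) = - mv A f := by
  funext i
  simp [mv]

end mv

variable {A : Type} [Field A] [CharZero A] {d : ℕ} (X : CurveData A d)

theorem pairAll_apply {n : Type} [Fintype n] (f : n → X.H) (b : n → (Fin (2 * d) → ℚ)) :
    pairAll X n f b = ∑ i, X.reg (f i) (b i) := by
  unfold pairAll
  rw [LinearMap.sum_apply, LinearMap.sum_apply]
  rfl

theorem pairAll_mv {m n : Type} [Fintype m] [Fintype n] (C : Matrix m n ℚ) (f : m → X.H)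
    (b : n → (Fin (2 * d) → ℚ)) : pairAll X n (mv Cᵀ f) b = pairAll X m f (mv C b) := by
  rw [pairAll_apply, pairAll_apply]
  simp only [mv, map_sum, map_smul, LinearMap.sum_apply, LinearMap.smul_apply,
    Matrix.transpose_apply]
  rw [Finset.sum_comm]

section sig

variable {n : Type} [Fintype n] [DecidableEq n]

/-- the motivic cohomology of the curve, twisted by `σ` -/
def Mot (σ : (A ≃ₐ[ℚ] A) →* Matrix n n ℚ) : Submodule ℚ (n → X.H) where
  carrier := {f | ∀ γ, (fun i => X.gal γ (f i)) = mv (σ γ)ᵀ f}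
  add_mem' {f g} hf hg γ := by
    rw [mv_add, ← hf γ, ← hg γ]
    funext i
    simp
  zero_mem' γ := by
    funext i
    simp [mv]
  smul_mem' q f hf γ := by
    rw [mv_smul, ← hf γ]
    funext i
    simp

/-- the homology of the curve, twisted by `σ` -/
def Hom (σ : (A ≃ₐ[ℚ] A) →* Matrix n n ℚ) : Submodule ℚ (n → (Fin (2 * d) → ℚ)) where
  carrier := {b | mv (σ X.c) (fun i => X.Finf (b i)) = -b}
  add_mem' {f g} hf hg := by
    have h : (fun i => X.Finf ((f + g) i)) = (fun i => X.Finf (f i)) + fun i => X.Finf (g i) := by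
      funext i
      simp
    simp only [Set.mem_ofPred_eq] at hf hg ⊢
    rw [h, mv_add, hf, hg, neg_add]
  zero_mem' := by
    funext i
    simp [mv]
  smul_mem' q f hf := by
    have h : (fun i => X.Finf ((q • f) i)) = q • fun i => X.Finf (f i) := by
      funext i
      simp
    simp only [Set.mem_ofPred_eq] at hf ⊢
    rw [h, mv_smul, hf, smul_neg]

/-- the regulator pairing -/
noncomputable def pairSig (σ : (A ≃ₐ[ℚ] A) →* Matrix n n ℚ) : Mot X σ →ₗ[ℚ] Hom X σ →ₗ[ℚ] ℝ :=
  (pairAll X n).domRestrict₁₂ (Mot X σ) (Hom X σ)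

theorem pairSig_apply (σ : (A ≃ₐ[ℚ] A) →* Matrix n n ℚ) (f : Mot X σ) (b : Hom X σ) :
    pairSig X σ f b = pairAll X n f b := rfl

variable {m : Type} [Fintype m] [DecidableEq m] {σ : (A ≃ₐ[ℚ] A) →* Matrix n n ℚ}
  {σ' : (A ≃ₐ[ℚ] A) →* Matrix m m ℚ}

/-- isomorphic representations, motivic cohomology -/
noncomputable def motIso (C : Matrix m n ℚ) (D : Matrix n m ℚ) (hCD : C * D = 1) (hDC : D * C = 1)
    (hC : ∀ γ, σ' γ * C = C * σ γ) : Mot X σ' ≃ₗ[ℚ] Mot X σ where
  toFun f := ⟨mv Cᵀ f.1, fun γ => by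
    rw [map_mv (X.gal γ) Cᵀ f.1, f.2 γ, ← mv_mul, ← mv_mul, ← Matrix.transpose_mul,
      ← Matrix.transpose_mul, hC]⟩
  map_add' f g := Subtype.ext (mv_add _ _ _)
  map_smul' q f := Subtype.ext (mv_smul _ _ _)
  invFun f := ⟨mv Dᵀ f.1, fun γ => by
    have hD : σ γ * D = D * σ' γ := by
      calc σ γ * D = D * C * (σ γ * D) := by rw [hDC, Matrix.one_mul]
        _ = D * (C * σ γ) * D := by simp only [Matrix.mul_assoc]
        _ = D * (σ' γ * C) * D := by rw [hC]
        _ = D * σ' γ * (C * D) := by simp only [Matrix.mul_assoc]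
        _ = D * σ' γ := by rw [hCD, Matrix.mul_one]
    rw [map_mv (X.gal γ) Dᵀ f.1, f.2 γ, ← mv_mul, ← mv_mul, ← Matrix.transpose_mul,
      ← Matrix.transpose_mul, hD]⟩
  left_inv f := Subtype.ext (by
    change mv Dᵀ (mv Cᵀ f.1) = f.1
    rw [← mv_mul, ← Matrix.transpose_mul, hCD, Matrix.transpose_one, mv_one])
  right_inv f := Subtype.ext (by
    change mv Cᵀ (mv Dᵀ f.1) = f.1
    rw [← mv_mul, ← Matrix.transpose_mul, hDC, Matrix.transpose_one, mv_one])

/-- isomorphic representations, homology -/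
noncomputable def homIso (C : Matrix m n ℚ) (D : Matrix n m ℚ) (hCD : C * D = 1) (hDC : D * C = 1)
    (hC : ∀ γ, σ' γ * C = C * σ γ) : Hom X σ ≃ₗ[ℚ] Hom X σ' where
  toFun b := ⟨mv C b.1, by
    change mv (σ' X.c) (fun i => X.Finf (mv C b.1 i)) = -mv C b.1
    have h : mv (σ X.c) (fun i => X.Finf (b.1 i)) = -b.1 := b.2
    rw [map_mv X.Finf C b.1, ← mv_mul, hC, mv_mul, h, mv_neg]⟩
  map_add' f g := Subtype.ext (mv_add _ _ _)
  map_smul' q f := Subtype.ext (mv_smul _ _ _)
  invFun b := ⟨mv D b.1, by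
    change mv (σ X.c) (fun i => X.Finf (mv D b.1 i)) = -mv D b.1
    have h : mv (σ' X.c) (fun i => X.Finf (b.1 i)) = -b.1 := b.2
    have hD : σ X.c * D = D * σ' X.c := by
      calc σ X.c * D = D * C * (σ X.c * D) := by rw [hDC, Matrix.one_mul]
        _ = D * (C * σ X.c) * D := by simp only [Matrix.mul_assoc]
        _ = D * (σ' X.c * C) * D := by rw [hC]
        _ = D * σ' X.c * (C * D) := by simp only [Matrix.mul_assoc]
        _ = D * σ' X.c := by rw [hCD, Matrix.mul_one]
    rw [map_mv X.Finf D b.1, ← mv_mul, hD, mv_mul, h, mv_neg]⟩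
  left_inv f := Subtype.ext (by
    change mv D (mv C f.1) = f.1
    rw [← mv_mul, hDC, mv_one])
  right_inv f := Subtype.ext (by
    change mv C (mv D f.1) = f.1
    rw [← mv_mul, hCD, mv_one])

theorem hasReg_iso (C : Matrix m n ℚ) (D : Matrix n m ℚ) (hCD : C * D = 1) (hDC : D * C = 1)
    (hC : ∀ γ, σ' γ * C = C * σ γ) {κ : Type} [Fintype κ] [DecidableEq κ] {R : ℝ}
    (h : HasReg (pairSig X σ) κ R) : HasReg (pairSig X σ') κ R := by
  refine h.transport (motIso X C D hCD hDC hC).symm (homIso X C D hCD hDC hC) fun f b => ?_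
  obtain ⟨f', rfl⟩ := (motIso X C D hCD hDC hC).surjective f
  rw [LinearEquiv.symm_apply_apply, pairSig_apply, pairSig_apply]
  exact (pairAll_mv X C f'.1 b.1).symm

/-- direct sums, motivic cohomology -/
noncomputable def motSum (σ : (A ≃ₐ[ℚ] A) →* Matrix n n ℚ) (σ' : (A ≃ₐ[ℚ] A) →* Matrix m m ℚ) :
    (Mot X σ × Mot X σ') ≃ₗ[ℚ] Mot X (dsum σ σ') where
  toFun f := ⟨Sum.elim f.1.1 f.2.1, fun γ => by
    funext i
    rw [dsum_apply]
    rcases i with i | i
    · have h := congrFun (f.1.2 γ) i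
      simp only [mv, Matrix.transpose_apply] at h
      simp [mv, h]
    · have h := congrFun (f.2.2 γ) i
      simp only [mv, Matrix.transpose_apply] at h
      simp [mv, h]⟩
  map_add' f g := by
    refine Subtype.ext (funext fun i => ?_)
    rcases i with i | i <;> rfl
  map_smul' q f := by
    refine Subtype.ext (funext fun i => ?_)
    rcases i with i | i <;> rfl
  invFun f := (⟨fun i => f.1 (Sum.inl i), fun γ => by
      funext i
      have h := congrFun (f.2 γ) (Sum.inl i)
      rw [dsum_apply] at h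
      simpa [mv] using h⟩, ⟨fun i => f.1 (Sum.inr i), fun γ => by
      funext i
      have h := congrFun (f.2 γ) (Sum.inr i)
      rw [dsum_apply] at h
      simpa [mv] using h⟩)
  left_inv f := rfl
  right_inv f := by
    refine Subtype.ext (funext fun i => ?_)
    rcases i with i | i <;> rfl

/-- direct sums, homology -/
noncomputable def homSum (σ : (A ≃ₐ[ℚ] A) →* Matrix n n ℚ) (σ' : (A ≃ₐ[ℚ] A) →* Matrix m m ℚ) :
    (Hom X σ × Hom X σ') ≃ₗ[ℚ] Hom X (dsum σ σ') where
  toFun f := ⟨Sum.elim f.1.1 f.2.1, by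
    have h1 : mv (σ X.c) (fun i => X.Finf (f.1.1 i)) = -f.1.1 := f.1.2
    have h2 : mv (σ' X.c) (fun i => X.Finf (f.2.1 i)) = -f.2.1 := f.2.2
    change mv (dsum σ σ' X.c) (fun i => X.Finf (Sum.elim f.1.1 f.2.1 i)) =
      -(Sum.elim f.1.1 f.2.1)
    funext i
    rw [dsum_apply]
    rcases i with i | i
    · have h := congrFun h1 i
      simp only [mv] at h
      simp [mv, h]
    · have h := congrFun h2 i
      simp only [mv] at h
      simp [mv, h]⟩
  map_add' f g := by
    refine Subtype.ext (funext fun i => ?_)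
    rcases i with i | i <;> rfl
  map_smul' q f := by
    refine Subtype.ext (funext fun i => ?_)
    rcases i with i | i <;> rfl
  invFun f := (⟨fun i => f.1 (Sum.inl i), by
      have h1 : mv (dsum σ σ' X.c) (fun i => X.Finf (f.1 i)) = -f.1 := f.2
      change mv (σ X.c) (fun i => X.Finf (f.1 (Sum.inl i))) = -(fun i => f.1 (Sum.inl i))
      funext i
      have h := congrFun h1 (Sum.inl i)
      rw [dsum_apply] at h
      simpa [mv] using h⟩, ⟨fun i => f.1 (Sum.inr i), by
      have h1 : mv (dsum σ σ' X.c) (fun i => X.Finf (f.1 i)) = -f.1 := f.2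
      change mv (σ' X.c) (fun i => X.Finf (f.1 (Sum.inr i))) = -(fun i => f.1 (Sum.inr i))
      funext i
      have h := congrFun h1 (Sum.inr i)
      rw [dsum_apply] at h
      simpa [mv] using h⟩)
  left_inv f := rfl
  right_inv f := by
    refine Subtype.ext (funext fun i => ?_)
    rcases i with i | i <;> rfl

theorem hasReg_sum {κ κ' : Type} [Fintype κ] [DecidableEq κ] [Fintype κ'] [DecidableEq κ'] {R R' : ℝ}
    (h : HasReg (pairSig X σ) κ R) (h' : HasReg (pairSig X σ') κ' R') :
    HasReg (pairSig X (dsum σ σ')) (κ ⊕ κ') (R * R') := by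
  refine (h.prod h').transport (motSum X σ σ') (homSum X σ σ') fun f b => ?_
  rw [pairSig_apply, prodPair_apply, pairSig_apply, pairSig_apply, pairAll_apply, pairAll_apply,
    pairAll_apply, Fintype.sum_sum_type]
  rfl

end sig

end Pool.Agent.Helper78K9.BK
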