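import Pool.Agent.Helper78K9.BK.Sig

/-!
# Beilinson's conjecture for sums and differences of representations
-/

set_option autoImplicit false
set_option linter.unusedSectionVars false

namespace Pool.Agent.Helper78K9.BK

open Matrix Polynomial Filter Topology NumberField Pool.Agent.Helper51K9.TI

theorem natsub (a b : ℕ) : (((a + b : ℕ) : WithTop ℤ)) - ((b : ℕ) : WithTop ℤ) =
    ((a : ℕ) : WithTop ℤ) := by
  have h1 : ∀ n : ℕ, ((n : ℕ) : WithTop ℤ) = (((n : ℤ)) : WithTop ℤ) := fun n => rfl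
  rw [h1, h1, h1, sub_eq_add_neg, ← WithTop.LinearOrderedAddCommGroup.coe_neg, ← WithTop.coe_add]
  congr 1
  push_cast
  ring

section lfun

variable {Γ : Type} [Group Γ] {n₀ : ℕ} {P : Type} (M : Realizations Γ ℚ n₀ P)
  {r r₁ r₂ : Type} [Fintype r] [DecidableEq r] [Fintype r₁] [DecidableEq r₁] [Fintype r₂]
  [DecidableEq r₂] {σ : Γ →* Matrix r r ℚ} {σ₁ : Γ →* Matrix r₁ r₁ ℚ} {σ₂ : Γ →* Matrix r₂ r₂ ℚ}

/-- the L-function of a difference -/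
theorem isL_sub {L₁ L₂ : (ℚ →+* ℂ) → ℂ → ℂ} (h₁ : IsLFunction M σ₁ L₁)
    (h₂ : IsLFunction M σ₂ L₂) (hz₂ : ∀ τ, ∃ b : ℝ, ∀ s : ℂ, b < s.re → L₂ τ s ≠ 0)
    (C : Matrix (r ⊕ r₂) r₁ ℚ) (D : Matrix r₁ (r ⊕ r₂) ℚ) (hCD : C * D = 1) (hDC : D * C = 1)
    (hC : ∀ γ, dsum σ σ₂ γ * C = C * σ₁ γ) :
    IsLFunction M σ (fun τ s => L₁ τ s / L₂ τ s) := by
  obtain ⟨Q₁, hQ₁, hP₁⟩ := h₁
  obtain ⟨Q₂, hQ₂, hP₂⟩ := h₂
  have hQ : ∀ p, ∃ Q : ℚ[X], IsLocalFactor M σ p Q ∧ Q₁ p = Q * Q₂ p := by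
    intro p
    have h1 := (hQ₁ p).iso M hCD hDC hC
    exact IsLocalFactor.div M h1 (hQ₂ p)
  choose Q₀ hQ₀ hQQ using hQ
  refine ⟨Q₀, hQ₀, fun τ => ?_⟩
  obtain ⟨m1, b, hb⟩ := hP₁ τ
  obtain ⟨m2, b', hb'⟩ := hP₂ τ
  obtain ⟨z, hz⟩ := hz₂ τ
  refine ⟨m1.div m2, max b (max b' z), fun s hs => ?_⟩
  have hs1 : b < s.re := lt_of_le_of_lt (le_max_left _ _) hs
  have hs2 : b' < s.re := lt_of_le_of_lt ((le_max_left _ _).trans (le_max_right _ _)) hs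
  have hs3 : z < s.re := lt_of_le_of_lt ((le_max_right _ _).trans (le_max_right _ _)) hs
  have k1 := hb s hs1
  have k2 := hb' s hs2
  have k3 := hz s hs3
  have k4 : ∀ p : P, ((Q₂ p).map τ).eval ((M.norm p : ℂ) ^ (-s)) ≠ 0 := by
    intro p h0
    apply k3
    refine k2.unique ?_
    have : HasProd (fun p : P =>
        (((Q₂ p).map τ).eval ((M.norm p : ℂ) ^ (-s)))⁻¹) 0 := by
      refine hasProd_zero_of_exists_eq_zero ⟨p, ?_⟩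
      rw [h0, _root_.inv_zero]
    exact this
  have k5 : Tendsto (fun F : Finset P => (∏ p ∈ F,
      (((Q₁ p).map τ).eval ((M.norm p : ℂ) ^ (-s)))⁻¹) /
      ∏ p ∈ F, (((Q₂ p).map τ).eval ((M.norm p : ℂ) ^ (-s)))⁻¹) atTop
      (𝓝 (L₁ τ s / L₂ τ s)) := Tendsto.div k1 k2 k3
  refine k5.congr fun F => ?_
  rw [← Finset.prod_div_distrib]
  refine Finset.prod_congr rfl fun p _ => ?_
  have h6 : (Q₁ p).map τ = (Q₀ p).map τ * (Q₂ p).map τ := by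
    rw [hQQ, Polynomial.map_mul]
  rw [h6, Polynomial.eval_mul, mul_inv, div_inv_eq_mul, mul_assoc, inv_mul_cancel₀ (k4 p),
    mul_one]

end lfun

variable {A : Type} [Field A] [CharZero A] {d : ℕ} (X : CurveData A d)

/-- Beilinson's conjecture for the curve twisted by `σ` -/
def BGood {n : Type} [Fintype n] [DecidableEq n] (σ : (A ≃ₐ[ℚ] A) →* Matrix n n ℚ) : Prop :=
  ∃ (R : ℝ) (L : (ℚ →+* ℂ) → ℂ → ℂ), R ≠ 0 ∧
    HasReg (pairSig X σ) (Fin (d * Fintype.card n)) R ∧ IsLFunction X.toRealizations σ L ∧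
    (∀ τ, ∃ b : ℝ, ∀ s : ℂ, b < s.re → L τ s ≠ 0) ∧
    ∀ τ, meromorphicOrderAt (L τ) 0 = (d * Fintype.card n : ℕ) ∧
      ∃ q : ℚ, q ≠ 0 ∧ meromorphicTrailingCoeffAt (L τ) 0 = (q : ℂ) * (R : ℂ)

variable {r r₁ r₂ : Type} [Fintype r] [DecidableEq r] [Fintype r₁] [DecidableEq r₁] [Fintype r₂]
  [DecidableEq r₂] {σ : (A ≃ₐ[ℚ] A) →* Matrix r r ℚ} {σ₁ : (A ≃ₐ[ℚ] A) →* Matrix r₁ r₁ ℚ}
  {σ₂ : (A ≃ₐ[ℚ] A) →* Matrix r₂ r₂ ℚ}

theorem BGood.dsum (h₁ : BGood X σ₁) (h₂ : BGood X σ₂) :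
    BGood X (Helper51K9.TI.dsum σ₁ σ₂) := by
  obtain ⟨R₁, L₁, hR₁, hr₁, hL₁, hz₁, ht₁⟩ := h₁
  obtain ⟨R₂, L₂, hR₂, hr₂, hL₂, hz₂, ht₂⟩ := h₂
  have hN : d * Fintype.card r₁ + d * Fintype.card r₂ = d * Fintype.card (r₁ ⊕ r₂) := by
    rw [Fintype.card_sum, mul_add]
  refine ⟨R₁ * R₂, _, mul_ne_zero hR₁ hR₂,
    (hasReg_sum X hr₁ hr₂).reindex (finSumFinEquiv.trans (finCongr hN)), hL₁.mul _ hL₂,
    fun τ => ?_, fun τ => ?_⟩
  · obtain ⟨b, hb⟩ := hz₁ τ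
    obtain ⟨b', hb'⟩ := hz₂ τ
    exact ⟨max b b', fun s hs => mul_ne_zero (hb s (lt_of_le_of_lt (le_max_left _ _) hs))
      (hb' s (lt_of_le_of_lt (le_max_right _ _) hs))⟩
  · obtain ⟨o1, q₁, hq₁, t1⟩ := ht₁ τ
    obtain ⟨o2, q₂, hq₂, t2⟩ := ht₂ τ
    have hm₁ := hL₁
    have hm₂ := hL₂
    obtain ⟨_, _, hm₁⟩ := hm₁
    obtain ⟨_, _, hm₂⟩ := hm₂
    have m1 : MeromorphicAt (L₁ τ) 0 := (hm₁ τ).1 0 (Set.mem_univ _)
    have m2 : MeromorphicAt (L₂ τ) 0 := (hm₂ τ).1 0 (Set.mem_univ _)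
    have e : (fun s => L₁ τ s * L₂ τ s) = L₁ τ * L₂ τ := rfl
    refine ⟨?_, q₁ * q₂, mul_ne_zero hq₁ hq₂, ?_⟩
    · rw [e, meromorphicOrderAt_mul m1 m2, o1, o2, ← hN]
      push_cast
      rfl
    · rw [e, m1.meromorphicTrailingCoeffAt_mul m2, t1, t2]
      push_cast
      ring

/-- **Differences.** -/
theorem BGood.sub (h₁ : BGood X σ₁) (h₂ : BGood X σ₂)
    (C : Matrix (r ⊕ r₂) r₁ ℚ) (D : Matrix r₁ (r ⊕ r₂) ℚ) (hCD : C * D = 1) (hDC : D * C = 1)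
    (hC : ∀ γ, Helper51K9.TI.dsum σ σ₂ γ * C = C * σ₁ γ)
    (hcard : Fintype.card r + Fintype.card r₂ = Fintype.card r₁) : BGood X σ := by
  obtain ⟨R₁, L₁, hR₁, hr₁, hL₁, hz₁, ht₁⟩ := h₁
  obtain ⟨R₂, L₂, hR₂, hr₂, hL₂, hz₂, ht₂⟩ := h₂
  have hN : d * Fintype.card r + d * Fintype.card r₂ = d * Fintype.card r₁ := by
    rw [← hcard, mul_add]
  have hsum : HasReg (pairSig X (Helper51K9.TI.dsum σ σ₂)) (Fin (d * Fintype.card r₁)) R₁ :=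
    hasReg_iso X C D hCD hDC hC hr₁
  -- dimensions
  obtain ⟨b, e, hbe⟩ := hsum
  obtain ⟨b₂, e₂, hbe₂⟩ := hr₂
  have f1 : Module.Finite ℚ (Mot X σ × Mot X σ₂) :=
    Module.Finite.of_basis (b.map (motSum X σ σ₂).symm)
  have f2 : Module.Finite ℚ (Hom X σ × Hom X σ₂) :=
    Module.Finite.of_basis (e.map (homSum X σ σ₂).symm)
  have g1 : Module.Finite ℚ (Mot X σ) :=
    Module.Finite.of_surjective (LinearMap.fst ℚ (Mot X σ) (Mot X σ₂)) LinearMap.fst_surjective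
  have g2 : Module.Finite ℚ (Hom X σ) :=
    Module.Finite.of_surjective (LinearMap.fst ℚ (Hom X σ) (Hom X σ₂)) LinearMap.fst_surjective
  have g3 : Module.Finite ℚ (Mot X σ₂) := Module.Finite.of_basis b₂
  have g4 : Module.Finite ℚ (Hom X σ₂) := Module.Finite.of_basis e₂
  have d1 : Module.finrank ℚ (Mot X σ) = d * Fintype.card r := by
    have h1 : Module.finrank ℚ (Mot X σ × Mot X σ₂) = d * Fintype.card r₁ := by
      rw [Module.finrank_eq_card_basis (b.map (motSum X σ σ₂).symm), Fintype.card_fin]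
    have h2 : Module.finrank ℚ (Mot X σ₂) = d * Fintype.card r₂ := by
      rw [Module.finrank_eq_card_basis b₂, Fintype.card_fin]
    rw [Module.finrank_prod, h2, ← hN] at h1
    exact Nat.add_right_cancel h1
  have d2 : Module.finrank ℚ (Hom X σ) = d * Fintype.card r := by
    have h1 : Module.finrank ℚ (Hom X σ × Hom X σ₂) = d * Fintype.card r₁ := by
      rw [Module.finrank_eq_card_basis (e.map (homSum X σ σ₂).symm), Fintype.card_fin]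
    have h2 : Module.finrank ℚ (Hom X σ₂) = d * Fintype.card r₂ := by
      rw [Module.finrank_eq_card_basis e₂, Fintype.card_fin]
    rw [Module.finrank_prod, h2, ← hN] at h1
    exact Nat.add_right_cancel h1
  have hreg : HasReg (pairSig X σ) (Fin (d * Fintype.card r))
      (gram (pairSig X σ) (Module.finBasisOfFinrankEq ℚ (Mot X σ) d1)
        (Module.finBasisOfFinrankEq ℚ (Hom X σ) d2)).det := ⟨_, _, rfl⟩
  set R := (gram (pairSig X σ) (Module.finBasisOfFinrankEq ℚ (Mot X σ) d1)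
        (Module.finBasisOfFinrankEq ℚ (Hom X σ) d2)).det with hRdef
  have hprod := (hasReg_sum X hreg ⟨b₂, e₂, hbe₂⟩).reindex (finSumFinEquiv.trans (finCongr hN))
  obtain ⟨q, hq, hqR⟩ := hprod.unique ⟨b, e, hbe⟩
  have hR : R ≠ 0 := by
    intro h0
    rw [h0, zero_mul, mul_zero] at hqR
    exact hR₁ hqR
  refine ⟨R, _, hR, hreg, isL_sub X.toRealizations hL₁ hL₂ hz₂ C D hCD hDC hC, fun τ => ?_,
    fun τ => ?_⟩
  · obtain ⟨b, hb⟩ := hz₁ τ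
    obtain ⟨b', hb'⟩ := hz₂ τ
    exact ⟨max b b', fun s hs => div_ne_zero (hb s (lt_of_le_of_lt (le_max_left _ _) hs))
      (hb' s (lt_of_le_of_lt (le_max_right _ _) hs))⟩
  · obtain ⟨o1, q₁, hq₁, t1⟩ := ht₁ τ
    obtain ⟨o2, q₂, hq₂, t2⟩ := ht₂ τ
    have hm₁ := hL₁
    have hm₂ := hL₂
    obtain ⟨_, _, hm₁⟩ := hm₁
    obtain ⟨_, _, hm₂⟩ := hm₂
    have m1 : MeromorphicAt (L₁ τ) 0 := (hm₁ τ).1 0 (Set.mem_univ _)
    have m2 : MeromorphicAt (L₂ τ) 0 := (hm₂ τ).1 0 (Set.mem_univ _)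
    have e : (fun s => L₁ τ s / L₂ τ s) = L₁ τ / L₂ τ := rfl
    refine ⟨?_, q₁ * q / q₂, div_ne_zero (mul_ne_zero hq₁ hq) hq₂, ?_⟩
    · rw [e, meromorphicOrderAt_div m1 m2, o1, o2, ← hN]
      exact natsub _ _
    · have hR₂' : (R₂ : ℂ) ≠ 0 := Complex.ofReal_ne_zero.2 hR₂
      have hq₂' : (q₂ : ℂ) ≠ 0 := Rat.cast_ne_zero.2 hq₂
      rw [e, div_eq_mul_inv, m1.meromorphicTrailingCoeffAt_mul m2.inv,
        meromorphicTrailingCoeffAt_inv, t1, t2, hqR]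
      push_cast
      field_simp

end Pool.Agent.Helper78K9.BK
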